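import Pool.Agent.Helper777.Prof.MainGen

/-!
# Free soluble groups are not determined by their finite images

We construct a finitely generated residually finite group `H` with the same finite homomorphic
images as the free soluble group `G = F_r / F_r^(3)` (for a certain rank `r`), but `H` is not
isomorphic to `G`.

Outline. Let `M = F_r / F_r''`, `S = Z[M]`, and embed `G` in `S^r ⋊ M` by the Magnus embedding.
An aperiodic set of square tiles (Kari) is turned into a finite set `R` of relations such that the
cyclic left `S`-module `C = S / (S R)` is nonzero but is annihilated modulo every finite quotient: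
for every finite-index normal subgroup `K` of `M` there is `e` in `Z[M']` acting as the identity on
the generator of `C` and mapping to `0` in `Z[M/K]`. There is a derivation `G -> C`, and `H` is its
kernel. `H` is finitely generated because `C` is finitely presented; `H` and `G` have the same
finite images because of the elements `e`; and `H` needs more than `r` generators.
-/

set_option autoImplicit false

namespace Pool.Agent.Results.MP_fcd4e5_al.FreeSolubleNotRigid

/-- `G` is residually finite: every `g ≠ 1` has a nontrivial image under some homomorphism of `G`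
onto a finite group. -/
def IsResiduallyFinite (G : Type) [Group G] : Prop :=
  ∀ g : G, g ≠ 1 → ∃ (Q : Type) (_ : Group Q) (_ : Finite Q) (f : G →* Q),
    Function.Surjective f ∧ f g ≠ 1

/-- `G` and `H` have the same finite homomorphic images. -/
def SameFiniteImages (G H : Type) [Group G] [Group H] : Prop :=
  ∀ (Q : Type) [Group Q] [Finite Q],
    (∃ f : G →* Q, Function.Surjective f) ↔ (∃ f : H →* Q, Function.Surjective f)

/-- The free soluble group of rank `r` and derived length `d`. -/
abbrev FreeSoluble (r d : ℕ) : Type :=
  FreeGroup (Fin r) ⧸ derivedSeries (FreeGroup (Fin r)) d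

open Pool.Agent.Helper777.Prof in
theorem result : ∃ (r : ℕ) (H : Type) (_ : Group H), 1 ≤ r ∧
    Group.FG H ∧ IsResiduallyFinite H ∧
    Group.FG (FreeSoluble r 3) ∧ IsResiduallyFinite (FreeSoluble r 3) ∧
    SameFiniteImages H (FreeSoluble r 3) ∧
    IsEmpty (H ≃* FreeSoluble r 3) := by
  classical
  obtain ⟨ι, _, H, _, hne, hfg, hrf, hsame, hiso⟩ := main_gen
  obtain ⟨φ⟩ := dq_congr ι (Fin (Fintype.card ι)) (Fintype.equivFin ι) 3
  refine ⟨Fintype.card ι, H, inferInstance, Fintype.card_pos, hfg, rf_surj hrf, ?_, ?_, ?_, ?_⟩
  · exact inferInstance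
  · exact rf_surj (rf_dq _ 3)
  · intro Q _ _
    rw [hsame Q]
    constructor
    · rintro ⟨f, hf⟩
      exact ⟨f.comp φ.symm.toMonoidHom, hf.comp φ.symm.surjective⟩
    · rintro ⟨f, hf⟩
      exact ⟨f.comp φ.toMonoidHom, hf.comp φ.surjective⟩
  · exact ⟨fun ψ => hiso.false (ψ.trans φ.symm)⟩

end Pool.Agent.Results.MP_fcd4e5_al.FreeSolubleNotRigid
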